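import Pool.Agent.H8.VR.Targets

/-!
# Evaluation is local
-/

set_option autoImplicit false

namespace Pool.Agent.H59.VR

open Pool.Agent.H8.VR Classical

theorem ev_congr (φ : C2) {U U' : ℕ → Bool → Prop} {W W' : ℕ → Bool → Bool → Prop}
    {e e' : Bool → Bool → Prop} {g g' : Bool → φ.Bt} (hU : ∀ i x, U i x ↔ U' i x)
    (hW : ∀ i x y, W i x y ↔ W' i x y) (he : ∀ x y, e x y ↔ e' x y) (hg : ∀ x, g x = g' x) :
    φ.ev U W e g ↔ φ.ev U' W' e' g' := by
  have h1 : U = U' := funext fun i => funext fun x => propext (hU i x)
  have h2 : W = W' := funext fun i => funext fun x => funext fun y => propext (hW i x y)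
  have h3 : e = e' := funext fun x => funext fun y => propext (he x y)
  have h4 : g = g' := funext hg
  rw [h1, h2, h3, h4]

theorem pf_LO : T_LO := by
  intro B X A φ π lam th v a b
  constructor
  · intro hab ht
    unfold C2.evA ev2
    refine ev_congr φ ?_ ?_ ?_ ?_
    · intro i x
      unfold PfL
      by_cases hx : x = v
      · simp only [hx, if_true]
      · simp only [hx, if_false]
    · intro i x y
      unfold RfL
      by_cases hx : x = v <;> by_cases hy : y = v
      · simp only [hx, hy, if_true, true_and, ne_eq, not_true_eq_false, false_and, or_false]
      · simp only [hx, hy, if_true, if_false, ne_eq]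
        rw [ht]
        have hba : ¬ b = a := fun h => hab h.symm
        simp only [hba, false_and, not_false_eq_true, true_and, false_or]
      · simp only [hx, hy, if_true, if_false, ne_eq]
        have hba : ¬ a = b := hab
        simp only [hba, false_and, not_false_eq_true, true_and, false_or]
      · simp only [hx, hy, if_false, true_and, ne_eq, not_true_eq_false, false_and, or_false]
    · intro x y
      by_cases hx : x = v <;> by_cases hy : y = v
      · simp only [hx, hy, if_true]
      · simp only [hx, hy, if_true, if_false]
        constructor
        · intro h
          exact absurd h.symm hab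
        · intro h
          exact absurd h.symm hy
      · simp only [hx, hy, if_true, if_false]
        constructor
        · intro h
          exact absurd h hab
        · intro h
          exact h.elim
      · simp only [hx, hy, if_false, true_iff]
        cases x <;> cases y <;> cases v <;> simp_all
    · intro x
      by_cases hx : x = v
      · simp only [hx, if_true]
      · simp only [hx, if_false]
  · unfold C2.evA ev1
    refine ev_congr φ ?_ ?_ ?_ ?_
    · intro i x
      unfold PfL
      rfl
    · intro i x y
      unfold RfL
      simp only [true_and, ne_eq, not_true_eq_false, false_and, or_false]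
    · intro x y
      simp only
    · intro x
      rfl

end Pool.Agent.H59.VR
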